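import Mathlib

set_option autoImplicit false

/-!
Combinatorial part for MP_9e49d7_an: the hereditary set of 0-1 sequences in which, for every `k`, ends of runs
of `k` zeros occur in every window of length `4^k`, and the procedure which repairs an arbitrary 0-1 sequence by
deleting ones.
-/

namespace Pool.Agent.Lib.MP_9e49d7_an

/-- The gap parameter. -/
def P (k : ℕ) : ℕ := 4 ^ k

/-- `s` is the end of a run of `k` zeros of `x` (positions before `0` count as zeros). -/
def RunEnd (k : ℕ) (x : ℕ → Bool) (s : ℕ) : Prop := ∀ t, t < s → s ≤ t + k → x t = false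

/-- The set of sequences of the example. -/
def Good (x : ℕ → Bool) : Prop := ∀ k e : ℕ, ∃ s, e ≤ s ∧ s ≤ e + P k ∧ RunEnd k x s

def Bad (z : ℕ → Bool) (k e : ℕ) : Prop := ∀ s, e ≤ s → s ≤ e + P k → ¬ RunEnd k z s

def Mk (z : ℕ → Bool) (k j : ℕ) : Prop :=
  ∃ n, j < n * P k ∧ n * P k ≤ j + k ∧ ∃ e, Bad z k e ∧ e ≤ n * P k ∧ n * P k < e + P k

def Mask (z : ℕ → Bool) (j : ℕ) : Prop := ∃ k, Mk z k j

open Classical in
/-- The repaired sequence. -/
noncomputable def clean (z : ℕ → Bool) (j : ℕ) : Bool := if Mask z j then false else z j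

lemma P_pos (k : ℕ) : 0 < P k := by unfold P; positivity

lemma two_mul_le_P (k : ℕ) : 2 * k + 1 ≤ P k := by
  unfold P
  induction k with
  | zero => norm_num
  | succ k ih => rw [pow_succ]; omega

lemma mul_pow_le_P (k : ℕ) : k * 2 ^ k ≤ P k := by
  unfold P
  have h1 : k ≤ 2 ^ k := (Nat.lt_two_pow_self).le
  calc k * 2 ^ k ≤ 2 ^ k * 2 ^ k := Nat.mul_le_mul_right _ h1
    _ = 4 ^ k := by rw [← mul_pow]; norm_num

lemma RunEnd.mono {k : ℕ} {x y : ℕ → Bool} {s : ℕ} (h : RunEnd k x s)
    (hxy : ∀ t, x t = false → y t = false) : RunEnd k y s :=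
  fun t h1 h2 => hxy t (h t h1 h2)

lemma Good.mono {x y : ℕ → Bool} (h : Good x) (hxy : ∀ t, x t = false → y t = false) : Good y := by
  intro k e
  obtain ⟨s, h1, h2, h3⟩ := h k e
  exact ⟨s, h1, h2, h3.mono hxy⟩

lemma clean_false {z : ℕ → Bool} {t : ℕ} (h : z t = false) : clean z t = false := by
  unfold clean; split_ifs <;> simp [h]

lemma clean_of_not_mask {z : ℕ → Bool} {t : ℕ} (h : ¬ Mask z t) : clean z t = z t := by
  unfold clean; rw [if_neg h]

/-- The block end attached to a bad position. -/
lemma exists_multiple (k e : ℕ) : ∃ n, e ≤ n * P k ∧ n * P k < e + P k := by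
  have hP := P_pos k
  refine ⟨(e + P k - 1) / P k, ?_, ?_⟩
  · have h1 := Nat.div_add_mod (e + P k - 1) (P k)
    have h2 := Nat.mod_lt (e + P k - 1) hP
    have h3 : P k * ((e + P k - 1) / P k) = (e + P k - 1) / P k * P k := mul_comm _ _
    omega
  · have h1 := Nat.div_mul_le_self (e + P k - 1) (P k)
    omega

lemma multiple_unique {k e n : ℕ} (h1 : e ≤ n * P k) (h2 : n * P k < e + P k) :
    n = (e + P k - 1) / P k := by
  have hP := P_pos k
  symm
  rw [Nat.div_eq_iff hP]
  constructor
  · have : n * P k ≤ e + P k - 1 := by omega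
    exact this
  · have : (n + 1) * P k = n * P k + P k := by ring
    omega

lemma good_clean (z : ℕ → Bool) : Good (clean z) := by
  intro k e
  by_cases hb : Bad z k e
  · obtain ⟨n, h1, h2⟩ := exists_multiple k e
    refine ⟨n * P k, h1, h2.le, ?_⟩
    intro t ht1 ht2
    have : Mask z t := ⟨k, n, ht1, ht2, e, hb, h1, h2⟩
    unfold clean
    rw [if_pos this]
  · unfold Bad at hb
    push Not at hb
    obtain ⟨s, h1, h2, h3⟩ := hb
    exact ⟨s, h1, h2, h3.mono fun t => clean_false⟩

open Classical in
lemma count_Mk_le (z : ℕ → Bool) (k N : ℕ) :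
    (((Finset.range N).filter (Mk z k)).card : ℝ) ≤ N * (2 * (1 / 2 : ℝ) ^ k) := by
  have hP := P_pos k
  set q := (N + k - 1) / P k with hq
  have hsub : (Finset.range N).filter (Mk z k) ⊆
      ((Finset.Icc 1 q) ×ˢ (Finset.Icc 1 k)).image (fun p : ℕ × ℕ => p.1 * P k - p.2) := by
    intro j hj
    rw [Finset.mem_filter, Finset.mem_range] at hj
    obtain ⟨hjN, n, h1, h2, e, _, _, _⟩ := hj
    rw [Finset.mem_image]
    refine ⟨(n, n * P k - j), ?_, ?_⟩
    · rw [Finset.mem_product, Finset.mem_Icc, Finset.mem_Icc]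
      refine ⟨⟨?_, ?_⟩, ?_, ?_⟩
      · rcases Nat.eq_zero_or_pos n with h | h
        · subst h; simp at h1
        · exact h
      · change n ≤ q
        rw [hq, Nat.le_div_iff_mul_le hP]
        omega
      · change 1 ≤ n * P k - j
        omega
      · change n * P k - j ≤ k
        omega
    · change n * P k - (n * P k - j) = j
      omega
  have hcard : ((Finset.range N).filter (Mk z k)).card ≤ q * k := by
    refine (Finset.card_le_card hsub).trans (Finset.card_image_le.trans ?_)
    rw [Finset.card_product, Nat.card_Icc, Nat.card_Icc]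
    simp
  have hqN : q * P k ≤ 2 * N := by
    rcases Nat.eq_zero_or_pos q with h | h
    · rw [h]; simp
    · have h1 : q * P k ≤ N + k - 1 := Nat.div_mul_le_self _ _
      have h2 : 1 * P k ≤ q * P k := Nat.mul_le_mul_right _ h
      have h3 := two_mul_le_P k
      omega
  have h2k := mul_pow_le_P k
  have key : ((Finset.range N).filter (Mk z k)).card * 2 ^ k ≤ 2 * N := by
    calc ((Finset.range N).filter (Mk z k)).card * 2 ^ k ≤ q * k * 2 ^ k := Nat.mul_le_mul_right _ hcard
      _ = q * (k * 2 ^ k) := by ring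
      _ ≤ q * P k := Nat.mul_le_mul_left _ h2k
      _ ≤ 2 * N := hqN
  have key' : (((Finset.range N).filter (Mk z k)).card : ℝ) * 2 ^ k ≤ 2 * N := by exact_mod_cast key
  have hpow : (0 : ℝ) < 2 ^ k := by positivity
  rw [one_div, inv_pow]
  rw [← le_div_iff₀ hpow] at key'
  calc (((Finset.range N).filter (Mk z k)).card : ℝ) ≤ 2 * N / 2 ^ k := key'
    _ = _ := by field_simp

open Classical in
lemma count_Mk_le_bad (z : ℕ → Bool) (k N : ℕ) :
    ((Finset.range N).filter (Mk z k)).card ≤ k * ((Finset.range (N + k)).filter (Bad z k)).card := by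
  have hsub : (Finset.range N).filter (Mk z k) ⊆
      (((Finset.range (N + k)).filter (Bad z k)) ×ˢ (Finset.Icc 1 k)).image
        (fun p : ℕ × ℕ => (p.1 + P k - 1) / P k * P k - p.2) := by
    intro j hj
    rw [Finset.mem_filter, Finset.mem_range] at hj
    obtain ⟨hjN, n, h1, h2, e, h3, h4, h5⟩ := hj
    rw [Finset.mem_image]
    refine ⟨(e, n * P k - j), ?_, ?_⟩
    · rw [Finset.mem_product, Finset.mem_Icc, Finset.mem_filter, Finset.mem_range]
      refine ⟨⟨?_, h3⟩, ?_, ?_⟩
      · change e < N + k
        omega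
      · change 1 ≤ n * P k - j
        omega
      · change n * P k - j ≤ k
        omega
    · change (e + P k - 1) / P k * P k - (n * P k - j) = j
      rw [← multiple_unique h4 h5]
      omega
  refine (Finset.card_le_card hsub).trans (Finset.card_image_le.trans ?_)
  rw [Finset.card_product, Nat.card_Icc, mul_comm]
  simp

lemma Mk_lt {z : ℕ → Bool} {k j : ℕ} (h : Mk z k j) : k ≤ j := by
  obtain ⟨n, h1, h2, _⟩ := h
  have hn : 1 ≤ n := by
    rcases Nat.eq_zero_or_pos n with h | h
    · subst h; simp at h1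
    · exact h
  have h3 : 1 * P k ≤ n * P k := Nat.mul_le_mul_right _ hn
  have h4 := two_mul_le_P k
  omega

open Classical in
lemma count_Mask_le (z : ℕ → Bool) (K N : ℕ) :
    (((Finset.range N).filter (Mask z)).card : ℝ) ≤
      (∑ k ∈ Finset.range K, (k : ℝ) * ((Finset.range (N + k)).filter (Bad z k)).card) +
        N * (4 * (1 / 2 : ℝ) ^ K) := by
  have hsub : (Finset.range N).filter (Mask z) ⊆
      (Finset.range (K + N)).biUnion (fun k => (Finset.range N).filter (Mk z k)) := by
    intro j hj
    rw [Finset.mem_filter, Finset.mem_range] at hj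
    obtain ⟨hjN, k, hk⟩ := hj
    rw [Finset.mem_biUnion]
    refine ⟨k, ?_, ?_⟩
    · rw [Finset.mem_range]
      have := Mk_lt hk
      omega
    · rw [Finset.mem_filter, Finset.mem_range]
      exact ⟨hjN, hk⟩
  have h1 : ((Finset.range N).filter (Mask z)).card ≤
      ∑ k ∈ Finset.range (K + N), ((Finset.range N).filter (Mk z k)).card :=
    (Finset.card_le_card hsub).trans Finset.card_biUnion_le
  have h2 : (((Finset.range N).filter (Mask z)).card : ℝ) ≤
      ∑ k ∈ Finset.range (K + N), (((Finset.range N).filter (Mk z k)).card : ℝ) := by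
    exact_mod_cast h1
  refine h2.trans ?_
  rw [Finset.sum_range_add]
  refine add_le_add ?_ ?_
  · refine Finset.sum_le_sum fun k _ => ?_
    exact_mod_cast count_Mk_le_bad z k N
  · calc ∑ x ∈ Finset.range N, (((Finset.range N).filter (Mk z (K + x))).card : ℝ)
        ≤ ∑ x ∈ Finset.range N, (N : ℝ) * (2 * (1 / 2 : ℝ) ^ (K + x)) :=
          Finset.sum_le_sum fun x _ => count_Mk_le z (K + x) N
      _ = N * (2 * (1 / 2 : ℝ) ^ K) * ∑ x ∈ Finset.range N, (1 / 2 : ℝ) ^ x := by
          rw [Finset.mul_sum]
          refine Finset.sum_congr rfl fun x _ => ?_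
          rw [pow_add]; ring
      _ ≤ N * (2 * (1 / 2 : ℝ) ^ K) * 2 := by
          gcongr
          rw [geom_sum_eq (by norm_num)]
          have : (0 : ℝ) ≤ (1 / 2 : ℝ) ^ N := by positivity
          have h : ((1 / 2 : ℝ) ^ N - 1) / (1 / 2 - 1) = 2 * (1 - (1 / 2 : ℝ) ^ N) := by ring
          rw [h]
          linarith
      _ = N * (4 * (1 / 2 : ℝ) ^ K) := by ring

/-! ### Tracking pseudo-orbits -/

/-- The error event for a sequence of sequences. -/
def Err (x : ℕ → ℕ → Bool) (m j : ℕ) : Prop := ∃ t, t < m ∧ x j (t + 1) ≠ x (j + 1) t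

lemma track (x : ℕ → ℕ → Bool) (m a : ℕ) (h : ∀ j, a ≤ j → j < a + m → ¬ Err x m j) :
    ∀ i t, i + t ≤ m → x a (i + t) = x (a + i) t := by
  intro i
  induction i with
  | zero => intro t _; simp
  | succ i ih =>
    intro t hit
    have h1 : x a (i + 1 + t) = x (a + i) (t + 1) := by
      have := ih (t + 1) (by omega)
      rw [← this]
      congr 1
      ring
    have h2 := h (a + i) (by omega) (by omega)
    unfold Err at h2
    push Not at h2
    rw [h1, h2 t (by omega)]
    rfl

lemma track' (x : ℕ → ℕ → Bool) (m a : ℕ) (h : ∀ j, a ≤ j → j < a + m → ¬ Err x m j)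
    (i : ℕ) (hi : i ≤ m) : x (a + i) 0 = x a i := by
  have := track x m a h i 0 (by omega)
  rw [add_zero] at this
  exact this.symm

lemma bad_imp (x : ℕ → ℕ → Bool) (hx : ∀ j, Good (x j)) (k e : ℕ)
    (hb : Bad (fun j => x j 0) k e) : ∃ j, e ≤ j + k ∧ j < e + P k + k ∧ Err x (k + P k) j := by
  by_contra hcon
  push Not at hcon
  set a := e - k with ha
  have hno : ∀ j, a ≤ j → j < a + (k + P k) → ¬ Err x (k + P k) j := by
    intro j h1 h2
    refine hcon j ?_ ?_
    · omega
    · omega
  obtain ⟨s', h1, h2, h3⟩ := hx a k (e - a)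
  refine hb (a + s') (by omega) (by omega) ?_
  intro t ht1 ht2
  have hta : a ≤ t := by omega
  obtain ⟨t', rfl⟩ : ∃ t', t = a + t' := ⟨t - a, by omega⟩
  have := track' x (k + P k) a hno t' (by omega)
  change x (a + t') 0 = false
  rw [this]
  exact h3 t' (by omega) (by omega)

open Classical in
lemma count_bad_le (x : ℕ → ℕ → Bool) (hx : ∀ j, Good (x j)) (k M : ℕ) :
    ((Finset.range M).filter (Bad (fun j => x j 0) k)).card ≤
      (P k + 2 * k) * ((Finset.range (M + P k + k)).filter (Err x (k + P k))).card := by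
  have hsub : (Finset.range M).filter (Bad (fun j => x j 0) k) ⊆
      (((Finset.range (M + P k + k)).filter (Err x (k + P k))) ×ˢ (Finset.range (P k + 2 * k))).image
        (fun p : ℕ × ℕ => p.1 + k - p.2) := by
    intro e he
    rw [Finset.mem_filter, Finset.mem_range] at he
    obtain ⟨j, h1, h2, h3⟩ := bad_imp x hx k e he.2
    rw [Finset.mem_image]
    refine ⟨(j, j + k - e), ?_, ?_⟩
    · rw [Finset.mem_product, Finset.mem_filter, Finset.mem_range, Finset.mem_range]
      refine ⟨⟨?_, h3⟩, ?_⟩
      · change j < M + P k + k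
        omega
      · change j + k - e < P k + 2 * k
        omega
    · change j + k - (j + k - e) = e
      omega
  refine (Finset.card_le_card hsub).trans (Finset.card_image_le.trans ?_)
  rw [Finset.card_product, Finset.card_range, mul_comm]

/-- The positions at which the repaired sequence fails to follow the pseudo-orbit on `m` coordinates. -/
def Fail (x : ℕ → ℕ → Bool) (m i : ℕ) : Prop := ∃ t, t < m ∧ clean (fun j => x j 0) (i + t) ≠ x i t

open Classical in
lemma count_fail_le (x : ℕ → ℕ → Bool) (m N : ℕ) :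
    ((Finset.range N).filter (Fail x m)).card ≤
      m * ((Finset.range (N + m)).filter (Mask (fun j => x j 0))).card +
      m * ((Finset.range (N + m)).filter (Err x m)).card := by
  have hsub : (Finset.range N).filter (Fail x m) ⊆
      ((((Finset.range (N + m)).filter (Mask (fun j => x j 0))) ×ˢ (Finset.range m)).image
        (fun p : ℕ × ℕ => p.1 - p.2)) ∪
      ((((Finset.range (N + m)).filter (Err x m)) ×ˢ (Finset.range m)).image
        (fun p : ℕ × ℕ => p.1 - p.2)) := by
    intro i hi
    rw [Finset.mem_filter, Finset.mem_range] at hi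
    obtain ⟨hiN, t, htm, hne⟩ := hi
    rw [Finset.mem_union]
    by_cases hM : Mask (fun j => x j 0) (i + t)
    · left
      rw [Finset.mem_image]
      refine ⟨(i + t, t), ?_, ?_⟩
      · rw [Finset.mem_product, Finset.mem_filter, Finset.mem_range, Finset.mem_range]
        refine ⟨⟨?_, hM⟩, htm⟩
        change i + t < N + m
        omega
      · change i + t - t = i
        omega
    · right
      rw [clean_of_not_mask hM] at hne
      by_contra hcon
      apply hne
      refine track' x m i ?_ t htm.le
      intro j h1 h2 hE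
      apply hcon
      rw [Finset.mem_image]
      refine ⟨(j, j - i), ?_, ?_⟩
      · rw [Finset.mem_product, Finset.mem_filter, Finset.mem_range, Finset.mem_range]
        refine ⟨⟨?_, hE⟩, ?_⟩
        · change j < N + m
          omega
        · change j - i < m
          omega
      · change j - (j - i) = i
        omega
  refine (Finset.card_le_card hsub).trans ((Finset.card_union_le _ _).trans ?_)
  refine add_le_add ?_ ?_
  · refine Finset.card_image_le.trans ?_
    rw [Finset.card_product, Finset.card_range, mul_comm]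
  · refine Finset.card_image_le.trans ?_
    rw [Finset.card_product, Finset.card_range, mul_comm]

end Pool.Agent.Lib.MP_9e49d7_an
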