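import Mathlib

set_option autoImplicit false

/-!
Definitions for MP_9e49d7_an: average shadowing properties and minimal points.
-/

namespace Pool.Agent.Lib.MP_9e49d7_an

open Filter Topology

section

variable {X : Type} [MetricSpace X]

/-- `x` is an asymptotic average pseudo-orbit of `f`. -/
def IsAsympAvgPseudoOrbit (f : X → X) (x : ℕ → X) : Prop :=
  Tendsto (fun n : ℕ => (1 / (n : ℝ)) * ∑ i ∈ Finset.range n, dist (f (x i)) (x (i + 1))) atTop (𝓝 0)

/-- `x` is asymptotically shadowed in average by the point `z`. -/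
def IsAsympShadowed (f : X → X) (x : ℕ → X) (z : X) : Prop :=
  Tendsto (fun n : ℕ => (1 / (n : ℝ)) * ∑ i ∈ Finset.range n, dist (f^[i] z) (x i)) atTop (𝓝 0)

/-- The asymptotic average shadowing property. -/
def AASP (f : X → X) : Prop :=
  ∀ x : ℕ → X, IsAsympAvgPseudoOrbit f x → ∃ z : X, IsAsympShadowed f x z

/-- `x` is a `δ`-average-pseudo-orbit of `f`. -/
def IsAvgPseudoOrbit (f : X → X) (δ : ℝ) (x : ℕ → X) : Prop :=
  ∃ N : ℕ, 0 < N ∧ ∀ n : ℕ, N ≤ n → ∀ k : ℕ,
    (1 / (n : ℝ)) * ∑ i ∈ Finset.range n, dist (f (x (i + k))) (x (i + k + 1)) < δ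

/-- `x` is `ε`-shadowed in average by the point `z`. -/
def IsAvgShadowed (f : X → X) (ε : ℝ) (x : ℕ → X) (z : X) : Prop :=
  limsup (fun n : ℕ => (1 / (n : ℝ)) * ∑ i ∈ Finset.range n, dist (f^[i] z) (x i)) atTop < ε

/-- The average shadowing property. -/
def ASP (f : X → X) : Prop :=
  ∀ ε : ℝ, 0 < ε → ∃ δ : ℝ, 0 < δ ∧ ∀ x : ℕ → X, IsAvgPseudoOrbit f δ x → ∃ z : X, IsAvgShadowed f ε x z

/-- `M` is a minimal set of `f`: a nonempty closed invariant set without proper nonempty closed invariant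
subsets. -/
def IsMinimalSet (f : X → X) (M : Set X) : Prop :=
  M.Nonempty ∧ IsClosed M ∧ Set.MapsTo f M M ∧
    ∀ A : Set X, A ⊆ M → A.Nonempty → IsClosed A → Set.MapsTo f A A → A = M

/-- `x` is a minimal point of `f`: its orbit closure is a minimal set. -/
def IsMinimalPoint (f : X → X) (x : X) : Prop :=
  IsMinimalSet f (closure (Set.range fun n : ℕ => f^[n] x))

end

end Pool.Agent.Lib.MP_9e49d7_an
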