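import Mathlib
import Pool.Agent.Lib.MP_9e49d7_an.Defs
import Pool.Agent.Lib.MP_9e49d7_an.Comb

set_option autoImplicit false

namespace Pool.Agent.Lib.MP_9e49d7_an

open Filter Topology

/-! ### From one inequality to both shadowing properties -/

section abstract

variable {X : Type} [MetricSpace X]

/-- The master inequality. -/
def Master (f : X → X) : Prop :=
  ∃ (A C : ℝ → ℝ) (R : ℝ → ℕ), (∀ ε, 0 ≤ C ε) ∧ ∀ x : ℕ → X, ∃ y : X, ∀ ε : ℝ, 0 < ε → ∀ N : ℕ,
    ∑ i ∈ Finset.range N, dist (f^[i] y) (x i) ≤ N * ε + A ε +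
      C ε * ∑ j ∈ Finset.range (N + R ε), dist (f (x j)) (x (j + 1))

/-- The common estimate. -/
lemma master_avg {f : X → X} {x : ℕ → X} {y : X} {A C ε : ℝ} {R : ℕ} (hC : 0 ≤ C) (hε : 0 < ε)
    (h : ∀ N : ℕ, ∑ i ∈ Finset.range N, dist (f^[i] y) (x i) ≤ N * (ε / 4) + A +
      C * ∑ j ∈ Finset.range (N + R), dist (f (x j)) (x (j + 1)))
    (hx : ∀ᶠ n : ℕ in atTop, (1 / (n : ℝ)) * ∑ i ∈ Finset.range n, dist (f (x i)) (x (i + 1)) <
      ε / (8 * (C + 1))) :
    ∀ᶠ n : ℕ in atTop, (1 / (n : ℝ)) * ∑ i ∈ Finset.range n, dist (f^[i] y) (x i) ≤ 3 / 4 * ε := by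
  have h1 : Tendsto (fun n : ℕ => A / (n : ℝ)) atTop (𝓝 0) := tendsto_const_div_atTop_nhds_zero_nat A
  have h2 : ∀ᶠ n : ℕ in atTop, A / (n : ℝ) < ε / 4 := h1.eventually (gt_mem_nhds (by positivity))
  have h3 : ∀ᶠ n : ℕ in atTop, (1 / ((n + R : ℕ) : ℝ)) * ∑ i ∈ Finset.range (n + R), dist (f (x i)) (x (i + 1)) <
      ε / (8 * (C + 1)) := (tendsto_add_atTop_nat R).eventually hx
  filter_upwards [h2, h3, eventually_ge_atTop (R + 1)] with n hn2 hn3 hn4
  have hn0 : (0 : ℝ) < n := by
    have : 0 < n := by omega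
    exact_mod_cast this
  have hnR : (0 : ℝ) < ((n + R : ℕ) : ℝ) := by
    have : 0 < n + R := by omega
    exact_mod_cast this
  have hnR2 : ((n + R : ℕ) : ℝ) ≤ 2 * n := by
    have : n + R ≤ 2 * n := by omega
    exact_mod_cast this
  set D := ∑ i ∈ Finset.range (n + R), dist (f (x i)) (x (i + 1)) with hD
  have hD2 : D ≤ ε / (8 * (C + 1)) * ((n + R : ℕ) : ℝ) := by
    rw [one_div, inv_mul_lt_iff₀ hnR] at hn3
    linarith
  have hD3 : C * D ≤ n * (ε / 4) := by
    calc C * D ≤ C * (ε / (8 * (C + 1)) * ((n + R : ℕ) : ℝ)) := by gcongr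
      _ ≤ (C + 1) * (ε / (8 * (C + 1)) * (2 * n)) := by
          gcongr
          linarith
      _ = n * (ε / 4) := by field_simp; ring
  have hA : A ≤ n * (ε / 4) := by
    rw [div_lt_iff₀ hn0] at hn2
    linarith
  rw [one_div, inv_mul_le_iff₀ hn0]
  have := h n
  linarith

lemma Master.aasp {f : X → X} (h : Master f) : AASP f := by
  obtain ⟨A, C, R, hC, H⟩ := h
  intro x hx
  obtain ⟨y, hy⟩ := H x
  refine ⟨y, ?_⟩
  unfold IsAsympShadowed
  rw [Metric.tendsto_atTop']
  intro ε hε
  have hx' : ∀ᶠ n : ℕ in atTop, (1 / (n : ℝ)) * ∑ i ∈ Finset.range n, dist (f (x i)) (x (i + 1)) <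
      ε / (8 * (C (ε / 4) + 1)) := by
    have hpos : 0 < ε / (8 * (C (ε / 4) + 1)) := by
      have := hC (ε / 4)
      positivity
    exact hx.eventually (gt_mem_nhds hpos)
  have := master_avg (hC (ε / 4)) hε (hy (ε / 4) (by positivity)) hx'
  rw [eventually_atTop] at this
  obtain ⟨N, hN⟩ := this
  refine ⟨N, fun n hn => ?_⟩
  rw [Real.dist_0_eq_abs, abs_of_nonneg (by positivity)]
  have := hN n hn.le
  linarith

lemma Master.asp {f : X → X} (h : Master f) : ASP f := by
  obtain ⟨A, C, R, hC, H⟩ := h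
  intro ε hε
  refine ⟨ε / (8 * (C (ε / 4) + 1)), ?_, fun x hx => ?_⟩
  · have := hC (ε / 4)
    positivity
  obtain ⟨y, hy⟩ := H x
  refine ⟨y, ?_⟩
  unfold IsAvgShadowed
  obtain ⟨N, hN0, hN⟩ := hx
  have hx' : ∀ᶠ n : ℕ in atTop, (1 / (n : ℝ)) * ∑ i ∈ Finset.range n, dist (f (x i)) (x (i + 1)) <
      ε / (8 * (C (ε / 4) + 1)) := by
    rw [eventually_atTop]
    refine ⟨N, fun n hn => ?_⟩
    have := hN n hn 0
    simpa using this
  have := master_avg (hC (ε / 4)) hε (hy (ε / 4) (by positivity)) hx'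
  refine lt_of_le_of_lt (limsup_le_of_le ?_ this) (by linarith)
  refine IsBoundedUnder.isCoboundedUnder_le ⟨0, ?_⟩
  rw [eventually_map]
  refine Eventually.of_forall fun n => ?_
  change 0 ≤ _
  positivity

end abstract

/-! ### The example space -/

/-- The space of the example: the good sequences. -/
@[ext] structure Xs where
  /-- the sequence -/
  val : ℕ → Bool
  /-- the defining property -/
  good : Good val

lemma Xs.val_injective : Function.Injective Xs.val := fun _ _ h => Xs.ext h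

noncomputable instance : MetricSpace Xs :=
  letI : MetricSpace (ℕ → Bool) := PiNat.metricSpaceOfDiscreteUniformity (fun _ => rfl)
  MetricSpace.induced Xs.val Xs.val_injective inferInstance

lemma dist_le_iff (x y : Xs) (n : ℕ) : dist x y ≤ (1 / 2 : ℝ) ^ n ↔ ∀ t, t < n → x.val t = y.val t := by
  have h := PiNat.mem_cylinder_iff_dist_le (x := y.val) (y := x.val) (n := n)
  rw [PiNat.mem_cylinder_iff] at h
  exact h.symm

lemma dist_le_one' (x y : Xs) : dist x y ≤ 1 := by
  have := (dist_le_iff x y 0).2 (fun t ht => absurd ht (by omega))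
  simpa using this

lemma isClosed_good : IsClosed {x : ℕ → Bool | Good x} := by
  have : {x : ℕ → Bool | Good x} = ⋂ k : ℕ, ⋂ e : ℕ, ⋃ s ∈ Finset.Icc e (e + P k),
      ⋂ t : ℕ, {x : ℕ → Bool | t < s → s ≤ t + k → x t = false} := by
    ext x
    simp only [Set.mem_ofPred_eq, Set.mem_iInter, Set.mem_iUnion, Finset.mem_Icc, Good, RunEnd, exists_prop,
      and_assoc]
  rw [this]
  refine isClosed_iInter fun k => isClosed_iInter fun e => ?_
  refine Set.Finite.isClosed_biUnion (Finset.finite_toSet _) fun s _ => ?_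
  refine isClosed_iInter fun t => ?_
  by_cases h1 : t < s ∧ s ≤ t + k
  · have : {x : ℕ → Bool | t < s → s ≤ t + k → x t = false} = {x : ℕ → Bool | x t = false} := by
      ext x
      simp only [Set.mem_ofPred_eq]
      tauto
    rw [this]
    exact isClosed_eq (continuous_apply t) continuous_const
  · have : {x : ℕ → Bool | t < s → s ≤ t + k → x t = false} = Set.univ := by
      ext x
      simp only [Set.mem_ofPred_eq, Set.mem_univ, iff_true]
      tauto
    rw [this]
    exact isClosed_univ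

lemma isInducing_val : Topology.IsInducing Xs.val := ⟨rfl⟩

lemma continuous_val : Continuous Xs.val := isInducing_val.continuous

lemma isClosedEmbedding_val : Topology.IsClosedEmbedding Xs.val := by
  refine ⟨⟨isInducing_val, Xs.val_injective⟩, ?_⟩
  have : Set.range Xs.val = {x : ℕ → Bool | Good x} := by
    ext x
    constructor
    · rintro ⟨y, rfl⟩
      exact y.good
    · intro hx
      exact ⟨⟨x, hx⟩, rfl⟩
  rw [this]
  exact isClosed_good

instance : CompactSpace Xs := isClosedEmbedding_val.compactSpace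

lemma continuous_mk {Y : Type} [TopologicalSpace Y] {g : Y → ℕ → Bool} (hg : Continuous g)
    (h : ∀ y, Good (g y)) : Continuous (fun y => (⟨g y, h y⟩ : Xs)) :=
  isInducing_val.continuous_iff.mpr hg

lemma good_shift {x : ℕ → Bool} (h : Good x) : Good (fun n => x (n + 1)) := by
  intro k e
  obtain ⟨s, h1, h2, h3⟩ := h k (e + 1)
  refine ⟨s - 1, by omega, by omega, ?_⟩
  intro t ht1 ht2
  exact h3 (t + 1) (by omega) (by omega)

/-- The shift on the example space. -/
def sh (x : Xs) : Xs := ⟨fun n => x.val (n + 1), good_shift x.good⟩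

lemma sh_apply (x : Xs) (n : ℕ) : (sh x).val n = x.val (n + 1) := rfl

lemma continuous_sh : Continuous sh :=
  continuous_mk (continuous_pi fun n => (continuous_apply (n + 1)).comp continuous_val) _

lemma iter_apply (x : Xs) (i n : ℕ) : (sh^[i] x).val n = x.val (n + i) := by
  induction i generalizing n with
  | zero => rfl
  | succ i ih =>
    rw [Function.iterate_succ_apply', sh_apply, ih]
    have : n + 1 + i = n + (i + 1) := by ring
    rw [this]

lemma good_cons {x : ℕ → Bool} (h : Good x) : Good (fun n => if n = 0 then false else x (n - 1)) := by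
  intro k e
  rcases Nat.eq_zero_or_pos e with he | he
  · subst he
    exact ⟨0, le_rfl, by omega, fun t ht _ => absurd ht (by omega)⟩
  · obtain ⟨s, h1, h2, h3⟩ := h k (e - 1)
    refine ⟨s + 1, by omega, by omega, ?_⟩
    intro t ht1 ht2
    change (if t = 0 then false else x (t - 1)) = false
    split_ifs with h0
    · rfl
    · exact h3 (t - 1) (by omega) (by omega)

lemma sh_surjective : Function.Surjective sh := by
  intro x
  refine ⟨⟨_, good_cons x.good⟩, ?_⟩
  apply Xs.ext
  funext n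
  change (if n + 1 = 0 then false else x.val (n + 1 - 1)) = x.val n
  rw [if_neg (by omega)]
  rfl

open Classical in
lemma count_err_le (x : ℕ → Xs) (m M : ℕ) :
    (((Finset.range M).filter (Err (fun j => (x j).val) m)).card : ℝ) ≤
      2 ^ m * ∑ j ∈ Finset.range M, dist (sh (x j)) (x (j + 1)) := by
  have h1 : (((Finset.range M).filter (Err (fun j => (x j).val) m)).card : ℝ) =
      ∑ j ∈ Finset.range M, if Err (fun j => (x j).val) m j then (1 : ℝ) else 0 := by
    rw [Finset.sum_ite, Finset.sum_const_zero, add_zero, Finset.sum_const, nsmul_eq_mul, mul_one]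
  rw [h1, Finset.mul_sum]
  refine Finset.sum_le_sum fun j _ => ?_
  split_ifs with hE
  · have hlt : (1 / 2 : ℝ) ^ m < dist (sh (x j)) (x (j + 1)) := by
      by_contra hcon
      push Not at hcon
      rw [dist_le_iff] at hcon
      obtain ⟨t, ht, hne⟩ := hE
      exact hne (hcon t ht)
    have h2 : (2 : ℝ) ^ m * (1 / 2 : ℝ) ^ m = 1 := by
      rw [← mul_pow]; norm_num
    calc (1 : ℝ) = (2 : ℝ) ^ m * (1 / 2 : ℝ) ^ m := h2.symm
      _ ≤ _ := by gcongr
  · positivity

/-- The coefficient for the scales below `K`. -/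
noncomputable def coef (K : ℕ) : ℝ := ∑ k ∈ Finset.range K, (k : ℝ) * ((P k + 2 * k : ℕ) : ℝ) * 2 ^ (k + P k)

lemma coef_nonneg (K : ℕ) : 0 ≤ coef K := by
  unfold coef
  exact Finset.sum_nonneg fun k _ => by positivity

lemma P_mono {k K : ℕ} (h : k ≤ K) : P k ≤ P K := by
  unfold P
  exact Nat.pow_le_pow_right (by norm_num) h

open Classical in
lemma key_estimate (x : ℕ → Xs) (m K N : ℕ) :
    ∑ i ∈ Finset.range N, dist (sh^[i] (⟨clean (fun j => (x j).val 0), good_clean _⟩ : Xs)) (x i) ≤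
      N * ((1 / 2 : ℝ) ^ m + m * (4 * (1 / 2 : ℝ) ^ K)) + m * m * (4 * (1 / 2 : ℝ) ^ K) +
      (m * coef K + m * 2 ^ m) *
        ∑ j ∈ Finset.range (N + (m + 2 * K + P K)), dist (sh (x j)) (x (j + 1)) := by
  set D : ℕ → ℝ := fun M => ∑ j ∈ Finset.range M, dist (sh (x j)) (x (j + 1)) with hD
  have hDmono : Monotone D := by
    intro a b hab
    exact Finset.sum_le_sum_of_subset_of_nonneg (Finset.range_mono hab) fun _ _ _ => dist_nonneg
  have hD0 : ∀ M, 0 ≤ D M := fun M => Finset.sum_nonneg fun _ _ => dist_nonneg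
  set R := m + 2 * K + P K with hR
  set xs : ℕ → ℕ → Bool := fun j => (x j).val with hxs
  have hxg : ∀ j, Good (xs j) := fun j => (x j).good
  have s1 : ∑ i ∈ Finset.range N, dist (sh^[i] (⟨clean (fun j => (x j).val 0), good_clean _⟩ : Xs)) (x i) ≤
      N * (1 / 2 : ℝ) ^ m + ((Finset.range N).filter (Fail xs m)).card := by
    have h1 : (((Finset.range N).filter (Fail xs m)).card : ℝ) =
        ∑ j ∈ Finset.range N, if Fail xs m j then (1 : ℝ) else 0 := by
      rw [Finset.sum_ite, Finset.sum_const_zero, add_zero, Finset.sum_const, nsmul_eq_mul, mul_one]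
    have h2 : (N : ℝ) * (1 / 2 : ℝ) ^ m = ∑ j ∈ Finset.range N, (1 / 2 : ℝ) ^ m := by
      rw [Finset.sum_const, Finset.card_range, nsmul_eq_mul]
    rw [h1, h2, ← Finset.sum_add_distrib]
    refine Finset.sum_le_sum fun i _ => ?_
    split_ifs with hF
    · have := dist_le_one' (sh^[i] (⟨clean (fun j => (x j).val 0), good_clean _⟩ : Xs)) (x i)
      have h3 : (0 : ℝ) ≤ (1 / 2 : ℝ) ^ m := by positivity
      linarith
    · rw [add_zero, dist_le_iff]
      intro t ht
      rw [iter_apply]
      unfold Fail at hF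
      push Not at hF
      have := hF t ht
      rw [add_comm t i]
      exact this
  have s2 : (((Finset.range N).filter (Fail xs m)).card : ℝ) ≤
      m * (((Finset.range (N + m)).filter (Mask (fun j => xs j 0))).card : ℝ) +
      m * (((Finset.range (N + m)).filter (Err xs m)).card : ℝ) := by
    exact_mod_cast count_fail_le xs m N
  have s3 := count_Mask_le (fun j => xs j 0) K (N + m)
  have s4 : (((Finset.range (N + m)).filter (Err xs m)).card : ℝ) ≤ 2 ^ m * D (N + R) :=
    (count_err_le x m (N + m)).trans (by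
      have : D (N + m) ≤ D (N + R) := hDmono (by omega)
      gcongr)
  have s5 : (∑ k ∈ Finset.range K, (k : ℝ) * ((Finset.range (N + m + k)).filter (Bad (fun j => xs j 0) k)).card) ≤
      coef K * D (N + R) := by
    unfold coef
    rw [Finset.sum_mul]
    refine Finset.sum_le_sum fun k hk => ?_
    have hk' : k < K := Finset.mem_range.mp hk
    have t1 : ((((Finset.range (N + m + k)).filter (Bad (fun j => xs j 0) k)).card : ℕ) : ℝ) ≤
        ((P k + 2 * k : ℕ) : ℝ) * (((Finset.range (N + m + k + P k + k)).filter (Err xs (k + P k))).card : ℝ) := by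
      exact_mod_cast count_bad_le xs hxg k (N + m + k)
    have t2 : (((Finset.range (N + m + k + P k + k)).filter (Err xs (k + P k))).card : ℝ) ≤
        2 ^ (k + P k) * D (N + R) :=
      (count_err_le x (k + P k) (N + m + k + P k + k)).trans (by
        have hP := P_mono hk'.le
        have : D (N + m + k + P k + k) ≤ D (N + R) := hDmono (by omega)
        gcongr)
    calc (k : ℝ) * ((Finset.range (N + m + k)).filter (Bad (fun j => xs j 0) k)).card
        ≤ (k : ℝ) * (((P k + 2 * k : ℕ) : ℝ) * (2 ^ (k + P k) * D (N + R))) := by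
          gcongr
          exact t1.trans (by gcongr)
      _ = _ := by ring
  have s6 : (((Finset.range (N + m)).filter (Mask (fun j => xs j 0))).card : ℝ) ≤
      coef K * D (N + R) + ((N + m : ℕ) : ℝ) * (4 * (1 / 2 : ℝ) ^ K) :=
    s3.trans (by gcongr)
  calc _ ≤ N * (1 / 2 : ℝ) ^ m + ((Finset.range N).filter (Fail xs m)).card := s1
    _ ≤ N * (1 / 2 : ℝ) ^ m + (m * (coef K * D (N + R) + ((N + m : ℕ) : ℝ) * (4 * (1 / 2 : ℝ) ^ K)) +
        m * (2 ^ m * D (N + R))) := by
        gcongr
        exact s2.trans (by gcongr)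
    _ = _ := by
        push_cast
        ring

lemma master_sh : Master sh := by
  -- choice of the parameters
  have hm : ∀ ε : ℝ, ∃ m : ℕ, 0 < ε → (1 / 2 : ℝ) ^ m < ε / 2 := by
    intro ε
    by_cases h : 0 < ε
    · obtain ⟨m, hm⟩ := exists_pow_lt_of_lt_one (half_pos h) (by norm_num : (1 / 2 : ℝ) < 1)
      exact ⟨m, fun _ => hm⟩
    · exact ⟨0, fun h' => absurd h' h⟩
  choose m hm using hm
  have hK : ∀ ε : ℝ, ∃ K : ℕ, 0 < ε → (m ε : ℝ) * (4 * (1 / 2 : ℝ) ^ K) < ε / 2 := by
    intro ε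
    by_cases h : 0 < ε
    · have h1 : 0 < ε / 2 / (4 * ((m ε : ℝ) + 1)) := by positivity
      obtain ⟨K, hK⟩ := exists_pow_lt_of_lt_one h1 (by norm_num : (1 / 2 : ℝ) < 1)
      refine ⟨K, fun _ => ?_⟩
      rw [lt_div_iff₀ (by positivity)] at hK
      have h3 : (0 : ℝ) < (1 / 2 : ℝ) ^ K := by positivity
      nlinarith
    · exact ⟨0, fun h' => absurd h' h⟩
  choose K hK using hK
  refine ⟨fun ε => m ε * m ε * (4 * (1 / 2 : ℝ) ^ K ε), fun ε => m ε * coef (K ε) + m ε * 2 ^ m ε,
    fun ε => m ε + 2 * K ε + P (K ε), fun ε => ?_, fun x => ?_⟩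
  · have := coef_nonneg (K ε)
    positivity
  refine ⟨⟨clean (fun j => (x j).val 0), good_clean _⟩, fun ε hε N => ?_⟩
  refine (key_estimate x (m ε) (K ε) N).trans ?_
  have h1 : (N : ℝ) * ((1 / 2 : ℝ) ^ m ε + m ε * (4 * (1 / 2 : ℝ) ^ K ε)) ≤ N * ε := by
    have := hm ε hε
    have := hK ε hε
    gcongr
    linarith
  linarith

end Pool.Agent.Lib.MP_9e49d7_an
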