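import Mathlib
import Pool.Agent.Lib.MP_9e49d7_an.Shadow

set_option autoImplicit false

namespace Pool.Agent.Lib.MP_9e49d7_an

open Filter Topology MeasureTheory

/-! ### A quantitative Krylov-Bogoliubov argument -/

section KB

variable {X : Type} [MetricSpace X] [CompactSpace X] [MeasurableSpace X] [BorelSpace X]

/-- The empirical measure of the first `N+1` points of the orbit of `y`. -/
noncomputable def emp (f : X → X) (y : X) (N : ℕ) : Measure X :=
  ((N + 1 : ℕ) : ENNReal)⁻¹ • ∑ i ∈ Finset.range (N + 1), Measure.dirac (f^[i] y)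

instance (f : X → X) (y : X) (N : ℕ) : IsProbabilityMeasure (emp f y N) := by
  constructor
  unfold emp
  rw [Measure.smul_apply, Measure.finsetSum_apply]
  simp only [measure_univ, Finset.sum_const, Finset.card_range, nsmul_eq_mul, mul_one, smul_eq_mul]
  exact ENNReal.inv_mul_cancel (by simp) (ENNReal.natCast_ne_top _)

lemma integral_emp (f : X → X) (y : X) (N : ℕ) (g : BoundedContinuousFunction X ℝ) :
    ∫ x, g x ∂(emp f y N) = ((N + 1 : ℕ) : ℝ)⁻¹ * ∑ i ∈ Finset.range (N + 1), g (f^[i] y) := by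
  unfold emp
  rw [integral_smul_measure, integral_finsetSum_measure]
  · rw [ENNReal.toReal_inv, ENNReal.toReal_natCast, smul_eq_mul]
    congr 1
    exact Finset.sum_congr rfl fun i _ => integral_dirac _ _
  · intro i _
    exact g.integrable _

lemma exists_invariant (f : X → X) (hf : Continuous f) (y : X) (U : Set X) (hU : IsClopen U) (c : ℝ)
    (hc : ∀ᶠ N : ℕ in atTop, c ≤ (((N + 1 : ℕ) : ℝ))⁻¹ *
      ∑ i ∈ Finset.range (N + 1), U.indicator (1 : X → ℝ) (f^[i] y)) :
    ∃ μ : Measure X, IsProbabilityMeasure μ ∧ Measure.map f μ = μ ∧ ENNReal.ofReal c ≤ μ U := by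
  let ν : ℕ → ProbabilityMeasure X := fun N => ⟨emp f y N, inferInstance⟩
  let 𝒰 : Ultrafilter ℕ := Filter.hyperfilter ℕ
  have h𝒰 : (𝒰 : Filter ℕ) ≤ atTop := Nat.hyperfilter_le_atTop
  let μ : ProbabilityMeasure X := (𝒰.map ν).lim
  have hlim : Tendsto ν 𝒰 (𝓝 μ) := (𝒰.map ν).le_nhds_lim
  rw [ProbabilityMeasure.tendsto_iff_forall_integral_tendsto] at hlim
  have hint : ∀ (g : BoundedContinuousFunction X ℝ) (N : ℕ), ∫ x, g x ∂(ν N : Measure X) =
      ((N + 1 : ℕ) : ℝ)⁻¹ * ∑ i ∈ Finset.range (N + 1), g (f^[i] y) := fun g N => integral_emp f y N g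
  refine ⟨μ, inferInstance, ?_, ?_⟩
  · have : IsProbabilityMeasure (Measure.map f (μ : Measure X)) :=
      Measure.isProbabilityMeasure_map hf.measurable.aemeasurable
    refine ext_of_forall_integral_eq_of_IsFiniteMeasure fun g => ?_
    rw [integral_map hf.measurable.aemeasurable g.continuous.aestronglyMeasurable]
    let g' : BoundedContinuousFunction X ℝ := g.compContinuous ⟨f, hf⟩
    have h1 := hlim g'
    have h2 := hlim g
    have h3 : Tendsto (fun N => ∫ x, g' x ∂(ν N : Measure X) - ∫ x, g x ∂(ν N : Measure X)) 𝒰 (𝓝 0) := by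
      have h4 : ∀ N : ℕ, ‖∫ x, g' x ∂(ν N : Measure X) - ∫ x, g x ∂(ν N : Measure X)‖ ≤
          2 * ‖g‖ / ((N : ℝ) + 1) := by
        intro N
        rw [hint, hint, ← mul_sub, ← Finset.sum_sub_distrib]
        have h5 : ∑ i ∈ Finset.range (N + 1), (g' (f^[i] y) - g (f^[i] y)) =
            g (f^[N + 1] y) - g (f^[0] y) := by
          rw [← Finset.sum_range_sub (fun i => g (f^[i] y))]
          refine Finset.sum_congr rfl fun i _ => ?_
          rw [Function.iterate_succ_apply']
          rfl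
        rw [h5, norm_mul, norm_inv, Real.norm_natCast, inv_mul_eq_div]
        push_cast
        gcongr
        calc ‖g (f^[N + 1] y) - g (f^[0] y)‖ ≤ ‖g (f^[N + 1] y)‖ + ‖g (f^[0] y)‖ := norm_sub_le _ _
          _ ≤ ‖g‖ + ‖g‖ := add_le_add (g.norm_coe_le_norm _) (g.norm_coe_le_norm _)
          _ = 2 * ‖g‖ := by ring
      refine squeeze_zero_norm h4 ?_
      have h6 : Tendsto (fun N : ℕ => 2 * ‖g‖ / ((N : ℝ) + 1)) atTop (𝓝 0) := by
        have := (tendsto_const_div_atTop_nhds_zero_nat (2 * ‖g‖)).comp (tendsto_add_atTop_nat 1)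
        refine this.congr fun N => ?_
        simp
      exact h6.mono_left h𝒰
    have h7 := h1.sub h2
    have h8 := tendsto_nhds_unique h7 h3
    have h9 : ∫ x, g' x ∂(μ : Measure X) = ∫ x, g x ∂(μ : Measure X) := by linarith
    exact h9
  · let g : BoundedContinuousFunction X ℝ :=
      BoundedContinuousFunction.mkOfCompact ⟨U.indicator 1, hU.continuous_indicator continuous_const⟩
    have h1 := hlim g
    have h2 : ∫ x, g x ∂(μ : Measure X) = (μ : Measure X).real U := by
      change ∫ x, U.indicator 1 x ∂(μ : Measure X) = _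
      exact integral_indicator_one hU.isClosed.measurableSet
    have h3 : c ≤ ∫ x, g x ∂(μ : Measure X) := by
      refine ge_of_tendsto h1 ?_
      refine h𝒰 ?_
      filter_upwards [hc] with N hN
      rw [hint]
      exact hN
    rw [h2] at h3
    calc ENNReal.ofReal c ≤ ENNReal.ofReal ((μ : Measure X).real U) := ENNReal.ofReal_le_ofReal h3
      _ = (μ : Measure X) U := by
        rw [measureReal_def, ENNReal.ofReal_toReal (measure_ne_top _ _)]

omit [CompactSpace X] in
/-- Countably many invariant measures can be combined. -/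
lemma combine (f : X → X) (hf : Continuous f) (μ : ℕ → Measure X) (h1 : ∀ i, IsProbabilityMeasure (μ i))
    (h2 : ∀ i, Measure.map f (μ i) = μ i) :
    ∃ ν : Measure X, IsProbabilityMeasure ν ∧ MeasurePreserving f ν ν ∧ ∀ (i : ℕ) (U : Set X),
      0 < μ i U → 0 < ν U := by
  let ν : Measure X := Measure.sum fun i => ((2 : ENNReal)⁻¹ ^ (i + 1)) • μ i
  have hν : ∀ s, MeasurableSet s → ν s = ∑' i, (2 : ENNReal)⁻¹ ^ (i + 1) * μ i s := by
    intro s hs
    rw [Measure.sum_apply _ hs]
    rfl
  refine ⟨ν, ?_, ?_, ?_⟩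
  · constructor
    rw [hν _ MeasurableSet.univ]
    simp only [measure_univ, mul_one]
    simp only [pow_succ]
    rw [ENNReal.tsum_mul_right, ENNReal.tsum_geometric, ENNReal.one_sub_inv_two, inv_inv]
    exact ENNReal.mul_inv_cancel (by norm_num) (by norm_num)
  · refine ⟨hf.measurable, ?_⟩
    refine Measure.ext fun s hs => ?_
    rw [Measure.map_apply hf.measurable hs, hν _ (hf.measurable hs), hν _ hs]
    refine tsum_congr fun i => ?_
    congr 1
    rw [← Measure.map_apply hf.measurable hs, h2 i]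
  · intro i U hi
    have h3 : ((2 : ENNReal)⁻¹ ^ (i + 1)) • μ i ≤ ν :=
      Measure.le_sum (fun i => ((2 : ENNReal)⁻¹ ^ (i + 1)) • μ i) i
    have h4 : 0 < (((2 : ENNReal)⁻¹ ^ (i + 1)) • μ i) U := by
      rw [Measure.smul_apply, smul_eq_mul]
      refine ENNReal.mul_pos ?_ hi.ne'
      exact (ENNReal.pow_pos (by simp) _).ne'
    exact h4.trans_le (h3 U)

end KB

/-! ### Cylinders are charged by invariant measures -/

/-- The periodic sequence with period `R` repeating the first `n` symbols of `x` followed by zeros. -/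
def per (x : ℕ → Bool) (n R j : ℕ) : Bool := if j % R < n then x (j % R) else false

lemma per_runEnd_boundary (x : ℕ → Bool) (n K k c : ℕ) (hk : k ≤ K) (hK : 0 < K) :
    RunEnd k (per x n (n + K)) ((n + K) * c) := by
  intro t ht1 ht2
  obtain ⟨d, rfl⟩ : ∃ d, c = d + 1 := by
    refine ⟨c - 1, ?_⟩
    rcases Nat.eq_zero_or_pos c with h | h
    · subst h; simp at ht1
    · omega
  have h0 : (n + K) * (d + 1) = (n + K) * d + (n + K) := by ring
  obtain ⟨t', rfl⟩ : ∃ t', t = (n + K) * d + t' := ⟨t - (n + K) * d, by omega⟩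
  have h1 : ((n + K) * d + t') % (n + K) = t' := by
    rw [Nat.mul_add_mod]
    exact Nat.mod_eq_of_lt (by omega)
  unfold per
  rw [h1, if_neg (by omega)]

lemma per_not_bad (x : ℕ → Bool) (hx : Good x) (n K k e : ℕ) (hk : k ≤ K) (hK : 0 < K) :
    ¬ Bad (per x n (n + K)) k e := by
  intro hb
  set R := n + K with hR
  have hRpos : 0 < R := by omega
  have he := Nat.div_add_mod e R
  set c := e / R with hc
  set e' := e % R with he'
  have he'R : e' < R := Nat.mod_lt _ hRpos
  -- the truncated sequence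
  have hx' : Good (fun t => if t < n then x t else false) :=
    hx.mono fun t ht => by
      change (if t < n then x t else false) = false
      split_ifs
      · exact ht
      · rfl
  obtain ⟨s', h1, h2, h3⟩ := hx' k e'
  by_cases hs : s' ≤ R
  · refine hb (R * c + s') (by omega) (by omega) ?_
    intro t ht1 ht2
    by_cases htc : R * c ≤ t
    · obtain ⟨t', rfl⟩ : ∃ t', t = R * c + t' := ⟨t - R * c, by omega⟩
      have h4 : (R * c + t') % R = t' := by
        rw [Nat.mul_add_mod]
        exact Nat.mod_eq_of_lt (by omega)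
      unfold per
      rw [h4]
      exact h3 t' (by omega) (by omega)
    · push Not at htc
      have htk : R * c ≤ t + k := by omega
      exact per_runEnd_boundary x n K k c hk hK t htc htk
  · push Not at hs
    have h5 : R * (c + 1) = R * c + R := by ring
    exact hb (R * (c + 1)) (by omega) (by omega) (per_runEnd_boundary x n K k (c + 1) hk hK)

open Classical in
lemma per_mask_count (x : ℕ → Bool) (hx : Good x) (n K N : ℕ) (hK : 0 < K) :
    (((Finset.range N).filter (Mask (per x n (n + K)))).card : ℝ) ≤ N * (4 * (1 / 2 : ℝ) ^ K) := by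
  refine (count_Mask_le _ K N).trans ?_
  have : ∑ k ∈ Finset.range K, (k : ℝ) * ((Finset.range (N + k)).filter (Bad (per x n (n + K)) k)).card = 0 := by
    refine Finset.sum_eq_zero fun k hk => ?_
    have hk' : k < K := Finset.mem_range.mp hk
    rw [Finset.filter_false_of_mem]
    · simp
    · intro e _
      exact per_not_bad x hx n K k e hk'.le hK
  rw [this, zero_add]

/-- The cylinder set. -/
def Cyl (x : Xs) (n : ℕ) : Set Xs := {v | ∀ t, t < n → v.val t = x.val t}

lemma isClopen_Cyl (x : Xs) (n : ℕ) : IsClopen (Cyl x n) := by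
  have : Cyl x n = ⋂ t ∈ Finset.range n, {v : Xs | v.val t = x.val t} := by
    ext v
    simp [Cyl]
  rw [this]
  refine isClopen_biInter_finset fun t _ => ?_
  have hcont : Continuous fun v : Xs => v.val t := (continuous_apply t).comp continuous_val
  exact (isClopen_discrete {x.val t}).preimage hcont

open Classical in
lemma orbit_count (x : Xs) (n K N : ℕ) (hK : 0 < K) :
    N / (n + K) ≤ ((Finset.range N).filter
      (fun i => sh^[i] (⟨clean (per x.val n (n + K)), good_clean _⟩ : Xs) ∈ Cyl x n)).card +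
      ((Finset.range N).filter (Mask (per x.val n (n + K)))).card := by
  set R := n + K with hR
  have hRpos : 0 < R := by omega
  set z := per x.val n R with hz
  set y : Xs := ⟨clean z, good_clean _⟩ with hy
  have hsub : Finset.range (N / R) ⊆
      (((Finset.range N).filter (fun i => sh^[i] y ∈ Cyl x n)).image (fun i => i / R)) ∪
      (((Finset.range N).filter (Mask z)).image (fun i => i / R)) := by
    intro c hc
    rw [Finset.mem_range] at hc
    have h1 : (c + 1) * R ≤ N := by
      have h2 : c + 1 ≤ N / R := hc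
      calc (c + 1) * R ≤ N / R * R := Nat.mul_le_mul_right _ h2
        _ ≤ N := Nat.div_mul_le_self _ _
    have h1' : (c + 1) * R = R * c + R := by ring
    rw [Finset.mem_union, Finset.mem_image, Finset.mem_image]
    by_cases hg : sh^[R * c] y ∈ Cyl x n
    · left
      refine ⟨R * c, ?_, ?_⟩
      · rw [Finset.mem_filter, Finset.mem_range]
        exact ⟨by omega, hg⟩
      · exact Nat.mul_div_cancel_left c hRpos
    · right
      unfold Cyl at hg
      simp only [Set.mem_ofPred_eq] at hg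
      push Not at hg
      obtain ⟨t, ht, hne⟩ := hg
      refine ⟨R * c + t, ?_, ?_⟩
      · rw [Finset.mem_filter, Finset.mem_range]
        refine ⟨by omega, ?_⟩
        by_contra hM
        apply hne
        rw [iter_apply, add_comm t]
        change clean z (R * c + t) = _
        rw [clean_of_not_mask hM, hz]
        have h4 : (R * c + t) % R = t := by
          rw [Nat.mul_add_mod]
          exact Nat.mod_eq_of_lt (by omega)
        unfold per
        rw [h4, if_pos ht]
      · rw [Nat.mul_add_div hRpos, Nat.div_eq_of_lt (by omega)]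
        rfl
  have := Finset.card_le_card hsub
  rw [Finset.card_range] at this
  refine this.trans ((Finset.card_union_le _ _).trans ?_)
  exact add_le_add Finset.card_image_le Finset.card_image_le

lemma pow_bound (n : ℕ) : (4 : ℝ) * (1 / 2 : ℝ) ^ (n + 10) ≤ 1 / (4 * (((n + (n + 10) : ℕ) : ℝ))) := by
  have h1 : (n + 1 : ℝ) ≤ 2 ^ n := by
    have : n + 1 ≤ 2 ^ n := Nat.lt_two_pow_self
    exact_mod_cast this
  have h2 : (0 : ℝ) < 2 ^ n := by positivity
  rw [le_div_iff₀ (by positivity), one_div, inv_pow, pow_add]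
  push_cast
  rw [mul_inv]
  have h3 : (0 : ℝ) < (2 ^ n)⁻¹ := by positivity
  have h4 : (2 : ℝ) ^ n * (2 ^ n)⁻¹ = 1 := mul_inv_cancel₀ h2.ne'
  have h5 : ((n : ℝ) + 1) * (2 ^ n)⁻¹ ≤ 1 := by
    calc ((n : ℝ) + 1) * (2 ^ n)⁻¹ ≤ 2 ^ n * (2 ^ n)⁻¹ := by gcongr
      _ = 1 := h4
  have h6 : 0 ≤ (n : ℝ) * (2 ^ n)⁻¹ := by positivity
  have h7 : ((2 : ℝ) ^ 10)⁻¹ = 1 / 1024 := by norm_num
  rw [h7]
  nlinarith

lemma exists_measure_cyl [MeasurableSpace Xs] [BorelSpace Xs] (x : Xs) (n : ℕ) :
    ∃ μ : Measure Xs, IsProbabilityMeasure μ ∧ Measure.map sh μ = μ ∧ 0 < μ (Cyl x n) := by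
  classical
  set K := n + 10 with hK
  set R := n + K with hR
  have hRpos : 0 < R := by omega
  have hRpos' : (0 : ℝ) < R := by exact_mod_cast hRpos
  set y : Xs := ⟨clean (per x.val n R), good_clean _⟩ with hy
  obtain ⟨μ, h1, h2, h3⟩ := exists_invariant sh continuous_sh y (Cyl x n) (isClopen_Cyl x n) (1 / (2 * (R : ℝ))) (by
    filter_upwards [eventually_ge_atTop (4 * R)] with N hN
    have c1 : ∑ i ∈ Finset.range (N + 1), (Cyl x n).indicator (1 : Xs → ℝ) (sh^[i] y) =
        (((Finset.range (N + 1)).filter (fun i => sh^[i] y ∈ Cyl x n)).card : ℝ) := by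
      rw [Finset.card_filter]
      push_cast
      refine Finset.sum_congr rfl fun i _ => ?_
      simp [Set.indicator_apply]
    rw [c1]
    have c2 := orbit_count x n K (N + 1) (by omega)
    have c3 := per_mask_count x.val x.good n K (N + 1) (by omega)
    have c4 := pow_bound n
    have c5 : ((N + 1 : ℕ) : ℝ) / R - 1 ≤ (((N + 1) / R : ℕ) : ℝ) := by
      have d1 := Nat.div_add_mod (N + 1) R
      have d2 := Nat.mod_lt (N + 1) hRpos
      have d3 : ((N + 1 : ℕ) : ℝ) = R * (((N + 1) / R : ℕ) : ℝ) + (((N + 1) % R : ℕ) : ℝ) := by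
        exact_mod_cast d1.symm
      have d4 : (((N + 1) % R : ℕ) : ℝ) < R := by exact_mod_cast d2
      rw [sub_le_iff_le_add, div_le_iff₀ hRpos', d3]
      nlinarith
    have c6 : (((N + 1) / R : ℕ) : ℝ) ≤
        (((Finset.range (N + 1)).filter (fun i => sh^[i] y ∈ Cyl x n)).card : ℝ) +
        (((Finset.range (N + 1)).filter (Mask (per x.val n R))).card : ℝ) := by
      exact_mod_cast c2
    have hN1 : (0 : ℝ) < ((N + 1 : ℕ) : ℝ) := by positivity
    have hN4 : 4 * (R : ℝ) ≤ ((N + 1 : ℕ) : ℝ) := by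
      have : 4 * R ≤ N + 1 := by omega
      exact_mod_cast this
    rw [le_inv_mul_iff₀ hN1]
    have c7 : ((N + 1 : ℕ) : ℝ) * (4 * (1 / 2 : ℝ) ^ K) ≤ ((N + 1 : ℕ) : ℝ) * (1 / (4 * (R : ℝ))) := by
      gcongr
    have c8 : ((N + 1 : ℕ) : ℝ) * (1 / (2 * (R : ℝ))) ≤ ((N + 1 : ℕ) : ℝ) / R - 1 -
        ((N + 1 : ℕ) : ℝ) * (1 / (4 * (R : ℝ))) := by
      have e1 : ((N + 1 : ℕ) : ℝ) / R - 1 - ((N + 1 : ℕ) : ℝ) * (1 / (4 * (R : ℝ))) -
          ((N + 1 : ℕ) : ℝ) * (1 / (2 * (R : ℝ))) = (((N + 1 : ℕ) : ℝ) - 4 * R) / (4 * R) := by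
        field_simp
        ring
      have e2 : 0 ≤ (((N + 1 : ℕ) : ℝ) - 4 * R) / (4 * R) := div_nonneg (by linarith) (by positivity)
      linarith
    linarith)
  refine ⟨μ, h1, h2, lt_of_lt_of_le ?_ h3⟩
  rw [ENNReal.ofReal_pos]
  positivity

/-- The zero sequence. -/
def zeroPt : Xs := ⟨fun _ => false, fun k e => ⟨e, le_rfl, by omega, fun _ _ _ => rfl⟩⟩

instance : Nonempty Xs := ⟨zeroPt⟩

lemma exists_full_support [MeasurableSpace Xs] [BorelSpace Xs] :
    ∃ ν : Measure Xs, IsProbabilityMeasure ν ∧ MeasurePreserving sh ν ν ∧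
      ∀ U : Set Xs, IsOpen U → U.Nonempty → 0 < ν U := by
  choose μ h1 h2 h3 using fun i : ℕ =>
    exists_measure_cyl (TopologicalSpace.denseSeq Xs (Nat.unpair i).1) (Nat.unpair i).2
  obtain ⟨ν, g1, g2, g3⟩ := combine sh continuous_sh μ h1 h2
  refine ⟨ν, g1, g2, fun U hU hne => ?_⟩
  obtain ⟨x, hx⟩ := hne
  obtain ⟨r, hr, hball⟩ := Metric.isOpen_iff.mp hU x hx
  obtain ⟨n, hn⟩ := exists_pow_lt_of_lt_one hr (by norm_num : (1 / 2 : ℝ) < 1)
  have hcyl : Cyl x n ⊆ U := by
    intro v hv
    apply hball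
    rw [Metric.mem_ball]
    exact lt_of_le_of_lt ((dist_le_iff v x n).2 hv) hn
  obtain ⟨w, hw1⟩ := (TopologicalSpace.denseRange_denseSeq Xs).exists_mem_open (isClopen_Cyl x n).isOpen
    ⟨x, fun t _ => rfl⟩
  have hsub : Cyl (TopologicalSpace.denseSeq Xs w) n ⊆ U := by
    refine subset_trans ?_ hcyl
    intro v hv t ht
    rw [hv t ht]
    exact hw1 t ht
  have hpos := h3 (Nat.pair w n)
  rw [Nat.unpair_pair] at hpos
  exact (g3 _ _ hpos).trans_le (measure_mono hsub)

/-! ### Minimal points -/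

lemma zero_mem_orbit_closure (x : Xs) : zeroPt ∈ closure (Set.range fun n : ℕ => sh^[n] x) := by
  rw [Metric.mem_closure_iff]
  intro ε hε
  obtain ⟨n, hn⟩ := exists_pow_lt_of_lt_one hε (by norm_num : (1 / 2 : ℝ) < 1)
  obtain ⟨s, h1, h2, h3⟩ := x.good n n
  refine ⟨sh^[s - n] x, ⟨s - n, rfl⟩, lt_of_le_of_lt ?_ hn⟩
  rw [dist_le_iff]
  intro t ht
  rw [iter_apply]
  change false = x.val (t + (s - n))
  rw [h3 (t + (s - n)) (by omega) (by omega)]

lemma iter_zeroPt (n : ℕ) : sh^[n] zeroPt = zeroPt := by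
  apply Xs.ext
  funext t
  rw [iter_apply]
  rfl

lemma minimal_iff (x : Xs) : IsMinimalPoint sh x ↔ x = zeroPt := by
  constructor
  · intro h
    obtain ⟨_, hcl, hmaps, hmin⟩ := h
    have h1 : ({zeroPt} : Set Xs) = closure (Set.range fun n : ℕ => sh^[n] x) := by
      refine hmin {zeroPt} ?_ (Set.singleton_nonempty _) isClosed_singleton ?_
      · rw [Set.singleton_subset_iff]
        exact zero_mem_orbit_closure x
      · intro v hv
        rw [Set.mem_singleton_iff] at hv ⊢
        rw [hv]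
        exact iter_zeroPt 1
    have h2 : x ∈ closure (Set.range fun n : ℕ => sh^[n] x) := subset_closure ⟨0, rfl⟩
    rw [← h1] at h2
    exact h2
  · rintro rfl
    have h1 : (Set.range fun n : ℕ => sh^[n] zeroPt) = {zeroPt} := by
      ext v
      simp only [Set.mem_range, iter_zeroPt, Set.mem_singleton_iff, exists_const]
      exact eq_comm
    unfold IsMinimalPoint
    rw [h1, closure_singleton]
    refine ⟨Set.singleton_nonempty _, isClosed_singleton, ?_, ?_⟩
    · intro v hv
      rw [Set.mem_singleton_iff] at hv ⊢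
      rw [hv]
      exact iter_zeroPt 1
    · intro A hA hne _ _
      exact (Set.Nonempty.subset_singleton_iff hne).mp hA

/-- The point `1000...`. -/
def onePt : Xs := ⟨fun n => if n = 0 then true else false, by
  intro k e
  have hP := two_mul_le_P k
  rcases Nat.eq_zero_or_pos e with he | he
  · subst he
    exact ⟨0, le_rfl, by omega, fun t ht _ => absurd ht (by omega)⟩
  · refine ⟨e + k, by omega, by omega, ?_⟩
    intro t ht1 ht2
    have : t ≠ 0 := by omega
    simp [this]⟩

lemma not_dense_minimal : ¬ Dense {x : Xs | IsMinimalPoint sh x} := by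
  intro h
  have h1 : {x : Xs | IsMinimalPoint sh x} = {zeroPt} := by
    ext x
    exact minimal_iff x
  rw [h1] at h
  obtain ⟨v, hv1, hv2⟩ := h.exists_mem_open (isClopen_Cyl onePt 1).isOpen ⟨onePt, fun t _ => rfl⟩
  rw [Set.mem_singleton_iff] at hv1
  subst hv1
  have := hv2 0 (by omega)
  exact absurd this (by decide)

end Pool.Agent.Lib.MP_9e49d7_an
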